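import Pool.Agent.Helper6.EC_B.Goals

/-!
# MP_ecc237_nt, Part B, packet D3
-/

open MeasureTheory Filter Topology Set

noncomputable section

namespace EC237.PB.PkD3

theorem prob (d1 : G_D1) : IsProbabilityMeasure rho := by
  obtain ⟨h1, h2⟩ := d1 0 (by norm_num)
  simp only [mul_zero, zero_mul, Real.exp_zero, add_zero, Real.Gamma_one, mul_one] at h1 h2
  rw [isProbabilityMeasure_iff_real]
  rw [integral_const, smul_eq_mul, mul_one] at h2
  exact h2

theorem int_exp (d1 : G_D1) : Integrable (fun a => Real.exp (|a| / 2)) rho := by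
  obtain ⟨h1, -⟩ := d1 (1 / 4) (by rw [abs_of_pos] <;> norm_num)
  obtain ⟨h2, -⟩ := d1 (-(1 / 4)) (by rw [abs_of_neg] <;> norm_num)
  have h3 := h1.add h2
  refine h3.mono' (by fun_prop) ?_
  refine Eventually.of_forall (fun a => ?_)
  rw [Real.norm_eq_abs, abs_of_pos (Real.exp_pos _)]
  simp only [Pi.add_apply]
  rcases abs_cases a with ⟨h, _⟩ | ⟨h, _⟩
  · rw [h]
    have e1 : 2 * (1 / 4) * a = a / 2 := by ring
    rw [e1]
    have := (Real.exp_pos (2 * (-(1 / 4)) * a)).le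
    linarith
  · rw [h]
    have e1 : 2 * (-(1 / 4)) * a = -a / 2 := by ring
    rw [e1]
    have := (Real.exp_pos (2 * (1 / 4) * a)).le
    linarith

theorem pow_le (k : ℕ) (a : ℝ) :
    |a| ^ k ≤ (4 ^ k * (k.factorial : ℝ)) * Real.exp (|a| / 4) := by
  have h := Real.pow_div_factorial_le_exp (|a| / 4) (by positivity) k
  have hk : (0:ℝ) < k.factorial := by exact_mod_cast Nat.factorial_pos k
  rw [div_le_iff₀ hk, div_pow] at h
  rw [div_le_iff₀ (by positivity)] at h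
  calc |a| ^ k ≤ Real.exp (|a| / 4) * k.factorial * 4 ^ k := h
    _ = _ := by ring

theorem exp_le (a : ℝ) : Real.exp (|a| / 4) ≤ Real.exp (|a| / 2) := by
  apply Real.exp_le_exp.2
  have := abs_nonneg a
  linarith

theorem int_pow (d1 : G_D1) (k : ℕ) : Integrable (fun a : ℝ => a ^ k) rho := by
  refine ((int_exp d1).const_mul (4 ^ k * (k.factorial : ℝ))).mono' (by fun_prop) ?_
  refine Eventually.of_forall (fun a => ?_)
  rw [Real.norm_eq_abs, abs_pow]
  refine (pow_le k a).trans ?_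
  have := exp_le a
  gcongr

/-- the moments -/
def m (k : ℕ) : ℝ := ∫ a, a ^ k ∂rho

def P (z : ℝ) : ℝ := ∑ k ∈ Finset.range 6, (2 * z) ^ k * m k / k.factorial

theorem real_exp_bound (x : ℝ) :
    |Real.exp x - ∑ k ∈ Finset.range 6, x ^ k / k.factorial| ≤ |x| ^ 6 * Real.exp |x| := by
  have h := Complex.norm_exp_sub_sum_le_norm_mul_exp (x : ℂ) 6
  have e : Complex.exp (x : ℂ) - ∑ k ∈ Finset.range 6, (x : ℂ) ^ k / k.factorial =
      ((Real.exp x - ∑ k ∈ Finset.range 6, x ^ k / k.factorial : ℝ) : ℂ) := by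
    push_cast
    rfl
  rw [e, Complex.norm_real, Complex.norm_real, Real.norm_eq_abs, Real.norm_eq_abs] at h
  exact h

/-- Taylor -/
theorem taylor (d1 : G_D1) : ∃ C : ℝ, ∀ z : ℝ, |z| ≤ 1 / 8 →
    |(∫ a, Real.exp (2 * z * a) ∂rho) - P z| ≤ C * |z| ^ 6 := by
  refine ⟨∫ a, (64 * (4 ^ 6 * ((Nat.factorial 6 : ℕ) : ℝ))) * Real.exp (|a| / 2) ∂rho, ?_⟩
  intro z hz
  have hz1 : |z| < 1 := by linarith
  have i1 := (d1 z hz1).1
  have i2 : ∀ k ∈ Finset.range 6, Integrable (fun a : ℝ => (2 * z * a) ^ k / k.factorial) rho := by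
    intro k _
    have := ((int_pow d1 k).const_mul ((2 * z) ^ k)).div_const (k.factorial : ℝ)
    refine this.congr (Eventually.of_forall (fun a => ?_))
    simp only
    rw [mul_pow (2 * z) a k]
  have eP : P z = ∫ a, ∑ k ∈ Finset.range 6, (2 * z * a) ^ k / k.factorial ∂rho := by
    rw [integral_finsetSum _ i2]
    unfold P
    apply Finset.sum_congr rfl
    intro k _
    have : (fun a : ℝ => (2 * z * a) ^ k / k.factorial) =
        fun a => ((2 * z) ^ k / k.factorial) * a ^ k := by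
      funext a
      rw [mul_pow (2 * z) a k]; ring
    rw [this, integral_const_mul]
    unfold m
    ring
  rw [eP, ← integral_sub i1 (integrable_finsetSum _ i2)]
  rw [← integral_mul_const]
  refine (norm_integral_le_of_norm_le (f := fun a => Real.exp (2 * z * a) -
    ∑ k ∈ Finset.range 6, (2 * z * a) ^ k / k.factorial)
    ((((int_exp d1).const_mul _).mul_const _)) ?_)
  refine Eventually.of_forall (fun a => ?_)
  rw [Real.norm_eq_abs]
  refine (real_exp_bound (2 * z * a)).trans ?_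
  have e1 : |2 * z * a| = 2 * |z| * |a| := by
    rw [abs_mul, abs_mul, abs_of_pos (by norm_num : (0:ℝ) < 2)]
  rw [e1]
  have e2 : Real.exp (2 * |z| * |a|) ≤ Real.exp (|a| / 4) := by
    apply Real.exp_le_exp.2
    nlinarith [abs_nonneg a]
  have e3 := pow_le 6 a
  have e4 : Real.exp (|a| / 4) * Real.exp (|a| / 4) = Real.exp (|a| / 2) := by
    rw [← Real.exp_add]; congr 1; ring
  calc (2 * |z| * |a|) ^ 6 * Real.exp (2 * |z| * |a|)
      ≤ (2 * |z| * |a|) ^ 6 * Real.exp (|a| / 4) := by gcongr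
    _ = 64 * |z| ^ 6 * |a| ^ 6 * Real.exp (|a| / 4) := by ring
    _ ≤ 64 * |z| ^ 6 * ((4 ^ 6 * ((Nat.factorial 6 : ℕ) : ℝ)) * Real.exp (|a| / 4)) *
        Real.exp (|a| / 4) := by gcongr
    _ = 64 * (4 ^ 6 * ((Nat.factorial 6 : ℕ) : ℝ)) *
        (Real.exp (|a| / 4) * Real.exp (|a| / 4)) * |z| ^ 6 := by ring
    _ = _ := by rw [e4]

open Asymptotics

/-- coefficient extraction: `f(z) = a z^k + z^(k+1) g(z) = O(z^(k+1))` implies `a = 0`. -/
theorem coef (a : ℝ) (k : ℕ) (g : ℝ → ℝ) (hg : ContinuousAt g 0)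
    (h : (fun z : ℝ => a * z ^ k + z ^ (k + 1) * g z) =O[𝓝 0] fun z => z ^ (k + 1)) : a = 0 := by
  have h1 : (fun z : ℝ => z ^ (k + 1) * g z) =O[𝓝 0] fun z => z ^ (k + 1) := by
    have := (isBigO_refl (fun z : ℝ => z ^ (k + 1)) (𝓝 0)).mul (hg.tendsto.isBigO_one ℝ)
    simpa using this
  have h2 : (fun z : ℝ => a * z ^ k) =O[𝓝 0] fun z => z ^ (k + 1) := by
    have := h.sub h1
    simpa using this
  obtain ⟨C, hC⟩ := h2.bound
  by_contra ha
  have hpos : 0 < |a| := abs_pos.2 ha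
  -- choose z small
  have h3 : ∀ᶠ z : ℝ in 𝓝 0, C * |z| < |a| := by
    have : Tendsto (fun z : ℝ => C * |z|) (𝓝 0) (𝓝 (C * |(0:ℝ)|)) :=
      (continuous_const.mul continuous_abs).tendsto 0
    rw [abs_zero, mul_zero] at this
    exact this.eventually (gt_mem_nhds hpos)
  have h4 := (hC.and h3)
  have h5 : ∃ᶠ z : ℝ in 𝓝 (0:ℝ), 0 < z := by
    rw [frequently_iff]
    intro U hU
    obtain ⟨ε, hε, hb⟩ := Metric.mem_nhds_iff.1 hU
    refine ⟨ε / 2, hb ?_, by positivity⟩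
    rw [Metric.mem_ball, dist_zero_right, Real.norm_eq_abs, abs_of_pos (by positivity)]
    linarith
  obtain ⟨z, hz, hz1, hz2⟩ := (h5.and_eventually h4).exists
  rw [Real.norm_eq_abs, Real.norm_eq_abs, abs_mul, abs_pow, abs_pow, abs_of_pos hz, pow_succ] at hz1
  rw [abs_of_pos hz] at hz2
  have hzk : 0 < z ^ k := pow_pos hz k
  have : |a| * z ^ k ≤ (C * z) * z ^ k := by calc
      _ ≤ _ := hz1
      _ = _ := by ring
  have := le_of_mul_le_mul_right this hzk
  linarith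

theorem bigO_of_bound (f : ℝ → ℝ) (C r : ℝ) (hr : 0 < r) (k : ℕ)
    (h : ∀ z : ℝ, |z| ≤ r → |f z| ≤ C * |z| ^ k) : f =O[𝓝 0] fun z => z ^ k := by
  apply IsBigO.of_bound C
  have : ∀ᶠ z : ℝ in 𝓝 0, |z| ≤ r := by
    have h1 : Tendsto (fun z : ℝ => |z|) (𝓝 0) (𝓝 |(0:ℝ)|) := continuous_abs.tendsto 0
    rw [abs_zero] at h1
    exact (h1.eventually (gt_mem_nhds hr)).mono (fun z hz => hz.le)
  filter_upwards [this] with z hz
  rw [Real.norm_eq_abs, Real.norm_eq_abs, abs_pow]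
  exact h z hz

theorem pow_bigO (i j : ℕ) (hij : i ≤ j) : (fun z : ℝ => z ^ j) =O[𝓝 0] fun z => z ^ i := by
  apply IsBigO.of_bound 1
  have : ∀ᶠ z : ℝ in 𝓝 0, |z| ≤ 1 := by
    have h1 : Tendsto (fun z : ℝ => |z|) (𝓝 0) (𝓝 |(0:ℝ)|) := continuous_abs.tendsto 0
    rw [abs_zero] at h1
    exact (h1.eventually (gt_mem_nhds one_pos)).mono (fun z hz => hz.le)
  filter_upwards [this] with z hz
  rw [Real.norm_eq_abs, Real.norm_eq_abs, abs_pow, abs_pow, one_mul]
  exact pow_le_pow_of_le_one (abs_nonneg z) hz hij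

theorem P_eq (d1 : G_D1) (z : ℝ) : P z = 1 + 2 * z * m 1 + 2 * z ^ 2 * m 2 + 4 / 3 * z ^ 3 * m 3
    + 2 / 3 * z ^ 4 * m 4 + 4 / 15 * z ^ 5 * m 5 := by
  have hp := prob d1
  have h0 : m 0 = 1 := by
    unfold m
    simp
  unfold P
  simp only [Finset.sum_range_succ, Finset.sum_range_zero, Nat.factorial, h0]
  push_cast
  ring

/-- the polynomial identity in fifth order -/
theorem main (d1 : G_D1) (d2 : G_D2) : ∃ Z : ℝ,
    (fun z : ℝ => 4 * m 1 * z + (8 / 3 * m 3 + Z) * z ^ 3 - 2 * m 1 * Z * z ^ 4 +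
      (8 / 15 * m 5 + 2 * m 2 * Z + 2 / 5 * zeta5) * z ^ 5) =O[𝓝 0] fun z => z ^ 6 := by
  obtain ⟨Z, C2, h2⟩ := d2
  obtain ⟨C1, h1⟩ := taylor d1
  refine ⟨Z, ?_⟩
  set φ : ℝ → ℝ := fun z => ∫ a, Real.exp (2 * z * a) ∂rho with hφ
  have hneg : Tendsto (fun z : ℝ => -z) (𝓝 0) (𝓝 0) := by
    have := (continuous_neg (G := ℝ)).tendsto 0
    rwa [neg_zero] at this
  have o1 : (fun z => φ z - P z) =O[𝓝 0] fun z => z ^ 6 :=
    bigO_of_bound _ C1 (1 / 8) (by norm_num) 6 h1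
  have o2 : (fun z => φ (-z) - P (-z)) =O[𝓝 0] fun z => z ^ 6 := by
    refine bigO_of_bound _ C1 (1 / 8) (by norm_num) 6 (fun z hz => ?_)
    have := h1 (-z) (by rwa [abs_neg])
    rwa [abs_neg] at this
  set D : ℝ → ℝ := fun z => 2 * gam * z + Real.log (Real.Gamma (1 + z)) -
    Real.log (Real.Gamma (1 - z)) with hD
  set Q : ℝ → ℝ := fun z => -(Z * z ^ 3) - 2 / 5 * zeta5 * z ^ 5 with hQ
  have o3 : (fun z => D z - Q z) =O[𝓝 0] fun z => z ^ 6 := by
    refine bigO_of_bound _ C2 (1 / 2) (by norm_num) 6 (fun z hz => ?_)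
    have := h2 z hz
    simp only [hD, hQ]
    have e : 2 * gam * z + Real.log (Real.Gamma (1 + z)) - Real.log (Real.Gamma (1 - z)) -
      (-(Z * z ^ 3) - 2 / 5 * zeta5 * z ^ 5) = Real.log (Real.Gamma (1 + z)) -
      Real.log (Real.Gamma (1 - z)) + 2 * gam * z + Z * z ^ 3 + 2 / 5 * zeta5 * z ^ 5 := by ring
    rw [e]
    exact this
  -- D = O(z^3)
  have oQ : Q =O[𝓝 0] fun z => z ^ 3 := by
    have a1 : (fun z : ℝ => -(Z * z ^ 3)) =O[𝓝 0] fun z => z ^ 3 :=
      ((isBigO_refl (fun z : ℝ => z ^ 3) (𝓝 0)).const_mul_left Z).neg_left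
    have a2 : (fun z : ℝ => 2 / 5 * zeta5 * z ^ 5) =O[𝓝 0] fun z => z ^ 3 :=
      (pow_bigO 3 5 (by norm_num)).const_mul_left _
    exact a1.sub a2
  have oD : D =O[𝓝 0] fun z => z ^ 3 := by
    have := (o3.trans (pow_bigO 3 6 (by norm_num))).add oQ
    simpa using this
  have tD : Tendsto D (𝓝 0) (𝓝 0) := by
    refine oD.trans_tendsto ?_
    have := (continuous_pow (M := ℝ) 3).tendsto 0
    simpa using this
  have o4 : (fun z => Real.exp (D z) - 1 - D z) =O[𝓝 0] fun z => z ^ 6 := by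
    have a1 : (fun z => Real.exp (D z) - 1 - D z) =O[𝓝 0] fun z => (D z) ^ 2 := by
      apply IsBigO.of_bound 1
      have : ∀ᶠ z in 𝓝 (0:ℝ), |D z| ≤ 1 := by
        have h1 := tD.abs
        rw [abs_zero] at h1
        exact (h1.eventually (gt_mem_nhds one_pos)).mono (fun z hz => hz.le)
      filter_upwards [this] with z hz
      rw [one_mul, norm_pow]
      exact Real.norm_exp_sub_one_sub_id_le hz
    refine a1.trans ?_
    have := oD.pow 2
    refine this.trans (IsBigO.of_bound 1 (Eventually.of_forall (fun z => ?_)))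
    rw [one_mul, ← pow_mul]
  have o5 : (fun z => Real.exp (D z) - (1 + Q z)) =O[𝓝 0] fun z => z ^ 6 := by
    have := o4.add o3
    refine this.congr_left (fun z => ?_)
    ring
  -- the functional equation
  have fe : ∀ᶠ z in 𝓝 (0:ℝ), φ z = φ (-z) * Real.exp (D z) := by
    have : ∀ᶠ z : ℝ in 𝓝 0, |z| < 1 := by
      have h1 : Tendsto (fun z : ℝ => |z|) (𝓝 0) (𝓝 |(0:ℝ)|) := continuous_abs.tendsto 0
      rw [abs_zero] at h1
      exact h1.eventually (gt_mem_nhds one_pos)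
    filter_upwards [this] with z hz
    have e1 := (d1 z hz).2
    have e2 := (d1 (-z) (by rwa [abs_neg])).2
    simp only [hφ, hD]
    rw [e1, e2]
    have hz' := abs_lt.1 hz
    have g1 : 0 < Real.Gamma (1 + z) := Real.Gamma_pos_of_pos (by linarith [hz'.1])
    have g2 : 0 < Real.Gamma (1 - z) := Real.Gamma_pos_of_pos (by linarith [hz'.2])
    rw [Real.exp_sub, Real.exp_add, Real.exp_log g1, Real.exp_log g2]
    have e3 : (1 + -z) = 1 - z := by ring
    rw [e3]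
    have e4 : Real.exp (2 * gam * z) = Real.exp (gam * z) * Real.exp (gam * z) := by
      rw [← Real.exp_add]; congr 1; ring
    have e5 : Real.exp (gam * -z) * Real.exp (gam * z) = 1 := by
      rw [← Real.exp_add]
      have : gam * -z + gam * z = 0 := by ring
      rw [this, Real.exp_zero]
    rw [e4]
    calc Real.exp (gam * z) * Real.Gamma (1 + z)
        = (Real.exp (gam * -z) * Real.exp (gam * z)) * (Real.exp (gam * z) * Real.Gamma (1 + z)) *
          (Real.Gamma (1 - z) / Real.Gamma (1 - z)) := by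
          rw [e5, div_self g2.ne', one_mul, mul_one]
      _ = _ := by ring
  -- boundedness
  have bP : (fun z => P (-z)) =O[𝓝 0] fun _ => (1:ℝ) := by
    have hc : Continuous (fun z => P (-z)) := by
      unfold P
      fun_prop
    exact (hc.tendsto 0).isBigO_one ℝ
  have bE : (fun z => Real.exp (D z)) =O[𝓝 0] fun _ => (1:ℝ) :=
    ((Real.continuous_exp.tendsto 0).comp tD).isBigO_one ℝ
  -- P z - P (-z) (1 + Q z) = O (z^6)
  have o6 : (fun z => P z - P (-z) * (1 + Q z)) =O[𝓝 0] fun z => z ^ 6 := by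
    have a1 : (fun z => P (-z) * (Real.exp (D z) - (1 + Q z))) =O[𝓝 0] fun z => z ^ 6 := by
      have := bP.mul o5
      simpa using this
    have a2 : (fun z => (φ (-z) - P (-z)) * Real.exp (D z)) =O[𝓝 0] fun z => z ^ 6 := by
      have := o2.mul bE
      simpa using this
    have a3 := (a1.add a2).sub o1
    refine a3.congr' ?_ (EventuallyEq.refl _ _)
    filter_upwards [fe] with z hz
    rw [hz]
    ring
  -- remove the terms of order >= 6
  have o7 : (fun z : ℝ => z ^ 6 * (2 / 3 * m 2 * 0 + (4 / 3 * m 3 * Z + 4 / 5 * m 1 * zeta5)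
      - (2 / 3 * m 4 * Z + 4 / 5 * m 2 * zeta5) * z + (4 / 15 * m 5 * Z + 8 / 15 * m 3 * zeta5)
      * z ^ 2 - (4 / 15 * m 4 * zeta5) * z ^ 3 + (8 / 75 * m 5 * zeta5) * z ^ 4))
      =O[𝓝 0] fun z => z ^ 6 := by
    have hc : Continuous (fun z : ℝ => (2 / 3 * m 2 * 0 + (4 / 3 * m 3 * Z + 4 / 5 * m 1 * zeta5)
      - (2 / 3 * m 4 * Z + 4 / 5 * m 2 * zeta5) * z + (4 / 15 * m 5 * Z + 8 / 15 * m 3 * zeta5)
      * z ^ 2 - (4 / 15 * m 4 * zeta5) * z ^ 3 + (8 / 75 * m 5 * zeta5) * z ^ 4)) := by fun_prop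
    have := (isBigO_refl (fun z : ℝ => z ^ 6) (𝓝 0)).mul ((hc.tendsto 0).isBigO_one ℝ)
    simpa using this
  refine (o6.add o7).congr_left (fun z => ?_)
  rw [P_eq d1 z, P_eq d1 (-z)]
  simp only [hQ]
  ring

theorem thm (d1 : G_D1) (d2 : G_D2) : G_D3 := by
  obtain ⟨Z, h⟩ := main d1 d2
  have m1 : m 1 = 0 := by
    have := coef (4 * m 1) 1 (fun z => (8 / 3 * m 3 + Z) * z - 2 * m 1 * Z * z ^ 2 +
      (8 / 15 * m 5 + 2 * m 2 * Z + 2 / 5 * zeta5) * z ^ 3) (by fun_prop)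
      ((h.trans (pow_bigO 2 6 (by norm_num))).congr_left (fun z => by ring))
    linarith
  rw [m1] at h
  have m3 : 8 / 3 * m 3 + Z = 0 := by
    exact coef (8 / 3 * m 3 + Z) 3 (fun z =>
      (8 / 15 * m 5 + 2 * m 2 * Z + 2 / 5 * zeta5) * z) (by fun_prop)
      ((h.trans (pow_bigO 4 6 (by norm_num))).congr_left (fun z => by ring))
  rw [m3] at h
  have m5 : 8 / 15 * m 5 + 2 * m 2 * Z + 2 / 5 * zeta5 = 0 := by
    exact coef _ 5 (fun z => 0) (by fun_prop) (h.congr_left (fun z => by ring))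
  have e1 : m 1 = ∫ a, a ∂rho := by unfold m; simp
  refine ⟨int_exp d1, ?_, ?_⟩
  · rw [← e1]; exact m1
  · change m 5 - 10 * m 2 * m 3 = _
    have : Z = -(8 / 3 * m 3) := by linarith
    rw [this] at m5
    linarith

end EC237.PB.PkD3
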